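import Pool.Agent.Lib.MP_3764f3_co.U.Cone
import Pool.Agent.Lib.MP_3764f3_co.U.Indep

set_option autoImplicit false

namespace Pool.Agent.Results.MP_3764f3_co.CycleMatching

open Pool.Agent.Lib.MP_3764f3_co

/-- In every simple drawing of K_n with n at least 2 and for every vertex r there is a plane
spanning subgraph in which the component of r is a cycle or an edge and all other components are
single edges. -/
theorem result :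
  ∀ (n : ℕ), 2 ≤ n →
  ∀ (pos : Fin n → ℝ × ℝ) (c : Fin n → Fin n → ℝ → ℝ × ℝ),
    Function.Injective pos →
    (∀ i j : Fin n, i < j →
      ContinuousOn (c i j) (Set.Icc 0 1) ∧ Set.InjOn (c i j) (Set.Icc 0 1) ∧
      c i j 0 = pos i ∧ c i j 1 = pos j ∧
      ∀ k : Fin n, ∀ s ∈ Set.Ioo (0:ℝ) 1, c i j s ≠ pos k) →
    (∀ i j k l : Fin n, i < j → k < l → (i, j) ≠ (k, l) →
      ∀ s ∈ Set.Ioo (0:ℝ) 1, ∀ t ∈ Set.Ioo (0:ℝ) 1, c i j s = c k l t →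
        (i ≠ k ∧ i ≠ l ∧ j ≠ k ∧ j ≠ l) ∧
        (∀ s' ∈ Set.Ioo (0:ℝ) 1, ∀ t' ∈ Set.Ioo (0:ℝ) 1,
          c i j s' = c k l t' → s' = s ∧ t' = t) ∧
        ∃ ε : ℝ, 0 < ε ∧ ∃ h : (ℝ × ℝ) ≃ₜ (ℝ × ℝ),
          h (c i j s) = 0 ∧
          (∀ u ∈ Set.Ioo (s - ε) (s + ε), (h (c i j u)).2 = 0) ∧
          (∀ u ∈ Set.Ioo (t - ε) (t + ε), (h (c k l u)).1 = 0)) →
    ∀ r : Fin n, ∃ σ : Equiv.Perm (Fin n), σ.support = Finset.univ ∧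
      (∀ v : Fin n, σ.SameCycle r v ∨ σ (σ v) = v) ∧
      ∀ v w : Fin n, (min v (σ v), max v (σ v)) ≠ (min w (σ w), max w (σ w)) →
        ∀ s ∈ Set.Ioo (0:ℝ) 1, ∀ t ∈ Set.Ioo (0:ℝ) 1,
          c (min v (σ v)) (max v (σ v)) s ≠ c (min w (σ w)) (max w (σ w)) t := by
  intro n hn pos c h0 h1 h2 r
  obtain ⟨p, G, hG, e⟩ := LT.exists_dr pos c h0 h1 h2
  obtain ⟨π, k1, k0, k2⟩ := hG.cyc (by simpa using hn) r
  refine ⟨π, Finset.eq_univ_of_forall fun v => Equiv.Perm.mem_support.mpr (k1 v), k0, fun v w k =>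
    e _ _ _ _ (k1 v).symm (k1 w).symm (k2 v w fun k3 => k ?_)⟩
  rcases Sym2.eq_iff.mp k3 with l | l
  · rw [l.2, l.1]
  · rw [l.2, l.1, min_comm, max_comm]

/-- Consequence: a plane spanning subgraph whose components are edges or cycles. -/
theorem factor :
  ∀ (n : ℕ), 2 ≤ n →
  ∀ (pos : Fin n → ℝ × ℝ) (c : Fin n → Fin n → ℝ → ℝ × ℝ),
    Function.Injective pos →
    (∀ i j : Fin n, i < j →
      ContinuousOn (c i j) (Set.Icc 0 1) ∧ Set.InjOn (c i j) (Set.Icc 0 1) ∧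
      c i j 0 = pos i ∧ c i j 1 = pos j ∧
      ∀ k : Fin n, ∀ s ∈ Set.Ioo (0:ℝ) 1, c i j s ≠ pos k) →
    (∀ i j k l : Fin n, i < j → k < l → (i, j) ≠ (k, l) →
      ∀ s ∈ Set.Ioo (0:ℝ) 1, ∀ t ∈ Set.Ioo (0:ℝ) 1, c i j s = c k l t →
        (i ≠ k ∧ i ≠ l ∧ j ≠ k ∧ j ≠ l) ∧
        (∀ s' ∈ Set.Ioo (0:ℝ) 1, ∀ t' ∈ Set.Ioo (0:ℝ) 1,
          c i j s' = c k l t' → s' = s ∧ t' = t) ∧
        ∃ ε : ℝ, 0 < ε ∧ ∃ h : (ℝ × ℝ) ≃ₜ (ℝ × ℝ),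
          h (c i j s) = 0 ∧
          (∀ u ∈ Set.Ioo (s - ε) (s + ε), (h (c i j u)).2 = 0) ∧
          (∀ u ∈ Set.Ioo (t - ε) (t + ε), (h (c k l u)).1 = 0)) →
    ∃ σ : Equiv.Perm (Fin n), σ.support = Finset.univ ∧
      ∀ v w : Fin n, (min v (σ v), max v (σ v)) ≠ (min w (σ w), max w (σ w)) →
        ∀ s ∈ Set.Ioo (0:ℝ) 1, ∀ t ∈ Set.Ioo (0:ℝ) 1,
          c (min v (σ v)) (max v (σ v)) s ≠ c (min w (σ w)) (max w (σ w)) t := by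
  intro n hn pos c h0 h1 h2
  obtain ⟨σ, a, -, b⟩ := result n hn pos c h0 h1 h2 ⟨0, by omega⟩
  exact ⟨σ, a, b⟩

/-- Consequence: n / 2 (rounded down) pairwise disjoint edges. -/
theorem matching :
  ∀ (n : ℕ) (pos : Fin n → ℝ × ℝ) (c : Fin n → Fin n → ℝ → ℝ × ℝ),
    Function.Injective pos →
    (∀ i j : Fin n, i < j →
      ContinuousOn (c i j) (Set.Icc 0 1) ∧ Set.InjOn (c i j) (Set.Icc 0 1) ∧
      c i j 0 = pos i ∧ c i j 1 = pos j ∧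
      ∀ k : Fin n, ∀ s ∈ Set.Ioo (0:ℝ) 1, c i j s ≠ pos k) →
    (∀ i j k l : Fin n, i < j → k < l → (i, j) ≠ (k, l) →
      ∀ s ∈ Set.Ioo (0:ℝ) 1, ∀ t ∈ Set.Ioo (0:ℝ) 1, c i j s = c k l t →
        (i ≠ k ∧ i ≠ l ∧ j ≠ k ∧ j ≠ l) ∧
        (∀ s' ∈ Set.Ioo (0:ℝ) 1, ∀ t' ∈ Set.Ioo (0:ℝ) 1,
          c i j s' = c k l t' → s' = s ∧ t' = t) ∧
        ∃ ε : ℝ, 0 < ε ∧ ∃ h : (ℝ × ℝ) ≃ₜ (ℝ × ℝ),
          h (c i j s) = 0 ∧
          (∀ u ∈ Set.Ioo (s - ε) (s + ε), (h (c i j u)).2 = 0) ∧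
          (∀ u ∈ Set.Ioo (t - ε) (t + ε), (h (c k l u)).1 = 0)) →
    ∃ M : Finset (Fin n × Fin n), M.card = n / 2 ∧ (∀ e ∈ M, e.1 < e.2) ∧
      ∀ e ∈ M, ∀ f ∈ M, e ≠ f → ∀ s ∈ Set.Icc (0:ℝ) 1, ∀ t ∈ Set.Icc (0:ℝ) 1,
        c e.1 e.2 s ≠ c f.1 f.2 t := by
  intro n pos c h0 h1 h2
  rcases Nat.lt_or_ge n 2 with hn | hn
  · exact ⟨∅, by simp; omega, by simp, by simp⟩
  obtain ⟨π, a, b, e⟩ := result n hn pos c h0 h1 h2 ⟨0, by omega⟩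
  have nf : ∀ v, π v ≠ v := fun v => Equiv.Perm.mem_support.mp (a ▸ Finset.mem_univ v)
  obtain ⟨A, m0, k1⟩ := LT.indep π _ nf b
  have lt : ∀ v, min v (π v) < max v (π v) := fun v => min_lt_max.mpr (nf v).symm
  have ds : ∀ v ∈ A, ∀ w ∈ A, v ≠ w → ∀ x, (x = min v (π v) ∨ x = max v (π v)) →
      (x = min w (π w) ∨ x = max w (π w)) → False := by
    intro v hv w hw h x a b
    have a1 := k1 v hv w hw
    have a2 := k1 w hw v hv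
    have a3 : π v ≠ π w := fun k => h (π.injective k)
    grind
  refine ⟨A.image fun v => (min v (π v), max v (π v)), ?_, ?_, ?_⟩
  · rw [Finset.card_image_of_injOn fun v hv w hw h => by
      by_contra k
      exact ds v hv w hw k _ (Or.inl rfl) (Or.inl (congrArg Prod.fst h)), m0]
  · simp only [Finset.mem_image]
    rintro _ ⟨v, -, rfl⟩
    exact lt v
  · simp only [Finset.mem_image]
    rintro _ ⟨v, hv, rfl⟩ _ ⟨w, hw, rfl⟩ h s hs t ht e1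
    have vw : v ≠ w := fun k => h (by rw [k])
    obtain ⟨-, -, a1, a2, a3⟩ := h1 _ _ (lt v)
    obtain ⟨-, -, b1, b2, b3⟩ := h1 _ _ (lt w)
    simp only at e1
    rcases LT.tri hs with rfl | rfl | hs <;> rcases LT.tri ht with rfl | rfl | ht
    · exact ds v hv w hw vw _ (Or.inl rfl) (Or.inl (h0 (a1.symm.trans (e1.trans b1))))
    · exact ds v hv w hw vw _ (Or.inl rfl) (Or.inr (h0 (a1.symm.trans (e1.trans b2))))
    · exact b3 _ t ht (e1.symm.trans a1)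
    · exact ds v hv w hw vw _ (Or.inr rfl) (Or.inl (h0 (a2.symm.trans (e1.trans b1))))
    · exact ds v hv w hw vw _ (Or.inr rfl) (Or.inr (h0 (a2.symm.trans (e1.trans b2))))
    · exact b3 _ t ht (e1.symm.trans a2)
    · exact a3 _ s hs (e1.trans b1)
    · exact a3 _ s hs (e1.trans b2)
    · exact e v w h s hs t ht e1

end Pool.Agent.Results.MP_3764f3_co.CycleMatching
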