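import Pool.Agent.Lib.MP_3764f3_co.Main

set_option autoImplicit false

namespace Pool.Agent.Results.MP_3764f3_co.GTwisted

/-- Rafla's conjecture for generalized twisted drawings, for every `n ≥ 3`. The drawing is given
as in the frozen statement; in addition every ray from `O` meets every edge at most once
(c-monotone) and the ray from `O` in direction `r` meets every edge in an interior point. -/
theorem result :
  ∀ (n : ℕ), 3 ≤ n →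
  ∀ (pos : Fin n → ℝ × ℝ) (c : Fin n → Fin n → ℝ → ℝ × ℝ),
    Function.Injective pos →
    (∀ i j : Fin n, i < j →
      ContinuousOn (c i j) (Set.Icc 0 1) ∧ Set.InjOn (c i j) (Set.Icc 0 1) ∧
      c i j 0 = pos i ∧ c i j 1 = pos j ∧
      ∀ k : Fin n, ∀ s ∈ Set.Ioo (0:ℝ) 1, c i j s ≠ pos k) →
    (∀ i j k l : Fin n, i < j → k < l → (i, j) ≠ (k, l) →
      ∀ s ∈ Set.Ioo (0:ℝ) 1, ∀ t ∈ Set.Ioo (0:ℝ) 1, c i j s = c k l t →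
        (i ≠ k ∧ i ≠ l ∧ j ≠ k ∧ j ≠ l) ∧
        (∀ s' ∈ Set.Ioo (0:ℝ) 1, ∀ t' ∈ Set.Ioo (0:ℝ) 1,
          c i j s' = c k l t' → s' = s ∧ t' = t) ∧
        ∃ ε : ℝ, 0 < ε ∧ ∃ h : (ℝ × ℝ) ≃ₜ (ℝ × ℝ),
          h (c i j s) = 0 ∧
          (∀ u ∈ Set.Ioo (s - ε) (s + ε), (h (c i j u)).2 = 0) ∧
          (∀ u ∈ Set.Ioo (t - ε) (t + ε), (h (c k l u)).1 = 0)) →
    ∀ (O : ℝ × ℝ),
    (∀ i j : Fin n, i < j → ∀ d : ℝ × ℝ, d ≠ 0 →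
      ∀ s ∈ Set.Icc (0:ℝ) 1, ∀ t ∈ Set.Icc (0:ℝ) 1,
        (∃ a : ℝ, 0 ≤ a ∧ c i j s = O + a • d) → (∃ b : ℝ, 0 ≤ b ∧ c i j t = O + b • d) →
        s = t) →
    (∃ r : ℝ × ℝ, r ≠ 0 ∧ ∀ i j : Fin n, i < j →
      ∃ s ∈ Set.Ioo (0:ℝ) 1, ∃ a : ℝ, 0 ≤ a ∧ c i j s = O + a • r) →
    ∃ σ : Equiv.Perm (Fin n), σ.IsCycle ∧ σ.support = Finset.univ ∧
      ∀ v w : Fin n, v ≠ w → ∀ s ∈ Set.Ioo (0:ℝ) 1, ∀ t ∈ Set.Ioo (0:ℝ) 1,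
        c (min v (σ v)) (max v (σ v)) s ≠ c (min w (σ w)) (max w (σ w)) t := by
  rintro n hn pos c - hc hx O hm ⟨r, hr, ht⟩
  exact Pool.Agent.Lib.MP_3764f3_co.main0 n hn pos c hc hx
    (Pool.Agent.Lib.MP_3764f3_co.chart O hr)
    (fun i j hij => Pool.Agent.Lib.MP_3764f3_co.exists_edge O hr (hc i j hij).1 (hm i j hij)
      (ht i j hij))

end Pool.Agent.Results.MP_3764f3_co.GTwisted
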