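import Pool.Agent.Lib.MP_3764f3_co.LDraw

set_option autoImplicit false

namespace Pool.Agent.Results.MP_3764f3_co.LongCycle

open Pool.Agent.Lib.MP_3764f3_co Pool.Agent.Lib.MP_d8c195_lc

/-- Every simple drawing of K_n with n at least 2^(25 k^2) has a plane cycle with at least 2^k
vertices. -/
theorem result :
  ∀ (k n : ℕ), 2 ≤ k → 2 ^ (25 * k ^ 2) ≤ n →
  ∀ (pos : Fin n → ℝ × ℝ) (c : Fin n → Fin n → ℝ → ℝ × ℝ),
    Function.Injective pos →
    (∀ i j : Fin n, i < j →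
      ContinuousOn (c i j) (Set.Icc 0 1) ∧ Set.InjOn (c i j) (Set.Icc 0 1) ∧
      c i j 0 = pos i ∧ c i j 1 = pos j ∧
      ∀ k : Fin n, ∀ s ∈ Set.Ioo (0:ℝ) 1, c i j s ≠ pos k) →
    (∀ i j k l : Fin n, i < j → k < l → (i, j) ≠ (k, l) →
      ∀ s ∈ Set.Ioo (0:ℝ) 1, ∀ t ∈ Set.Ioo (0:ℝ) 1, c i j s = c k l t →
        (i ≠ k ∧ i ≠ l ∧ j ≠ k ∧ j ≠ l) ∧
        (∀ s' ∈ Set.Ioo (0:ℝ) 1, ∀ t' ∈ Set.Ioo (0:ℝ) 1,
          c i j s' = c k l t' → s' = s ∧ t' = t) ∧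
        ∃ ε : ℝ, 0 < ε ∧ ∃ h : (ℝ × ℝ) ≃ₜ (ℝ × ℝ),
          h (c i j s) = 0 ∧
          (∀ u ∈ Set.Ioo (s - ε) (s + ε), (h (c i j u)).2 = 0) ∧
          (∀ u ∈ Set.Ioo (t - ε) (t + ε), (h (c k l u)).1 = 0)) →
    ∃ (m : ℕ) (g : ℕ → Fin n), 2 ^ k ≤ m ∧ (∀ i < m, ∀ j < m, g i = g j → i = j) ∧ g m = g 0 ∧
      ∀ i < m, ∀ j < m, i ≠ j → ∀ s ∈ Set.Ioo (0:ℝ) 1, ∀ t ∈ Set.Ioo (0:ℝ) 1,
        c (min (g i) (g (i + 1))) (max (g i) (g (i + 1))) s ≠
          c (min (g j) (g (j + 1))) (max (g j) (g (j + 1))) t := by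
  intro k n hk hn pos c h0 h1 h2
  let φ : (ℝ × ℝ) ≃ₜ ℂ := Complex.equivRealProdCLM.symm.toHomeomorph
  have cl : ∀ s ∈ Set.Ioo (0 : ℝ) 1, max 0 (min s 1) = s := fun s hs =>
    clamp_eq (Set.Ioo_subset_Icc_self hs)
  obtain ⟨G, hG, e⟩ := LT.Dr.of_lt (pos := fun i => φ (pos i))
    (F := fun i j t => φ (c i j (max 0 (min t 1)))) (φ.injective.comp h0) (fun i j hij => by
      obtain ⟨a1, a2, a3, a4, a5⟩ := h1 i j hij
      refine ⟨φ.continuous.comp (a1.comp_continuous (by fun_prop) (clamp_mem zero_le_one)),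
        fun u hu w hw e => ?_, by simp [a3], by simp [a4], fun k s hs e => ?_⟩
      · simp only [clamp_eq hu, clamp_eq hw] at e
        exact a2 hu hw (φ.injective e)
      · simp only [cl s hs] at e
        exact a5 k s hs (φ.injective e)) (fun i j k l hij hkl hne s hs t ht e => by
      simp only [cl s hs, cl t ht] at e
      obtain ⟨a1, a2, ε, hε, h, a3, a4, a5⟩ := h2 i j k l hij hkl (by simpa using hne) s hs t ht
        (φ.injective e)
      refine ⟨a1, fun u hu w hw e => ?_, ?_⟩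
      · simp only [cl u hu, cl w hw] at e
        exact a2 u hu w hw (φ.injective e)
      obtain ⟨δ, d0, d1, d2, d3, d4, d5⟩ : ∃ δ > 0, δ < ε ∧ δ ≤ s ∧ δ ≤ 1 - s ∧ δ ≤ t ∧ δ ≤ 1 - t :=
        ⟨min (ε / 2) (min (min s (1 - s)) (min t (1 - t))), lt_min (half_pos hε)
          (lt_min (lt_min hs.1 (sub_pos.mpr hs.2)) (lt_min ht.1 (sub_pos.mpr ht.2))),
          (min_le_left _ _).trans_lt (half_lt_self hε),
          (min_le_right _ _).trans ((min_le_left _ _).trans (min_le_left _ _)),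
          (min_le_right _ _).trans ((min_le_left _ _).trans (min_le_right _ _)),
          (min_le_right _ _).trans ((min_le_right _ _).trans (min_le_left _ _)),
          (min_le_right _ _).trans ((min_le_right _ _).trans (min_le_right _ _))⟩
      have m1 : ∀ u ∈ Set.Icc (s - δ) (s + δ), u ∈ Set.Icc (0 : ℝ) 1 := fun u hu =>
        ⟨by linarith [hu.1], by linarith [hu.2]⟩
      have m2 : ∀ u ∈ Set.Icc (t - δ) (t + δ), u ∈ Set.Icc (0 : ℝ) 1 := fun u hu =>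
        ⟨by linarith [hu.1], by linarith [hu.2]⟩
      refine ⟨δ, d0, (φ.symm.trans h).trans φ, ?_, by simp only [cl s hs, cl t ht, e],
        fun u hu w hw e => ?_, fun u hu w hw e => ?_, fun u hu => ?_, fun u hu => ?_⟩
      · simp only [cl s hs, Homeomorph.trans_apply, Homeomorph.symm_apply_apply, a3]
        exact map_zero Complex.equivRealProdCLM.symm
      · simp only [clamp_eq (m1 u hu), clamp_eq (m1 w hw)] at e
        exact (h1 i j hij).2.1 (m1 u hu) (m1 w hw) (φ.injective e)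
      · simp only [clamp_eq (m2 u hu), clamp_eq (m2 w hw)] at e
        exact (h1 k l hkl).2.1 (m2 u hu) (m2 w hw) (φ.injective e)
      · simp only [clamp_eq (m1 u hu), Homeomorph.trans_apply, Homeomorph.symm_apply_apply]
        exact a4 u ⟨by linarith [hu.1], by linarith [hu.2]⟩
      · simp only [clamp_eq (m2 u hu), Homeomorph.trans_apply, Homeomorph.symm_apply_apply]
        exact a5 u ⟨by linarith [hu.1], by linarith [hu.2]⟩)
  obtain ⟨m, hm, g, g1, g2, g3⟩ := hG.ax.main k hk Finset.univ (by simpa using hn)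
  have hm3 : 3 ≤ m := le_trans (by norm_num) ((Nat.pow_le_pow_right two_pos hk).trans hm)
  refine ⟨m, g, hm, g1, g2, fun i hi j hj hij s hs t ht e1 => ?_⟩
  have ne : ∀ i < m, g i ≠ g (i + 1) := fun i hi e => by
    have := LT.cyc_ne hm3 g1 g2 hi.le hi e
    omega
  obtain ⟨s', hs', e2⟩ := e _ _ (ne i hi) s hs
  obtain ⟨t', ht', e3⟩ := e _ _ (ne j hj) t ht
  refine hG.cyc_nx hm3 g1 g2 g3 hi hj hij ⟨s', hs', t', ht', ?_⟩
  rw [← e2, ← e3]
  simp only [cl s hs, cl t ht, e1]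

end Pool.Agent.Results.MP_3764f3_co.LongCycle
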