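import Pool.Agent.Lib.MP_3764f3_co.U.Part

set_option autoImplicit false

namespace Pool.Agent.Results.MP_3764f3_co.PathPartition

open Pool.Agent.Lib.MP_3764f3_co

/-- For n / 5 ≤ m ≤ n / 2 every simple drawing of K_n has a Hamiltonian cycle with m pairwise
non-adjacent edges whose deletion leaves pairwise non-crossing edges. -/
theorem result :
  ∀ (n m : ℕ), 3 ≤ n → n ≤ 5 * m → 2 * m ≤ n →
  ∀ (pos : Fin n → ℝ × ℝ) (c : Fin n → Fin n → ℝ → ℝ × ℝ),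
    Function.Injective pos →
    (∀ i j : Fin n, i < j →
      ContinuousOn (c i j) (Set.Icc 0 1) ∧ Set.InjOn (c i j) (Set.Icc 0 1) ∧
      c i j 0 = pos i ∧ c i j 1 = pos j ∧
      ∀ k : Fin n, ∀ s ∈ Set.Ioo (0:ℝ) 1, c i j s ≠ pos k) →
    (∀ i j k l : Fin n, i < j → k < l → (i, j) ≠ (k, l) →
      ∀ s ∈ Set.Ioo (0:ℝ) 1, ∀ t ∈ Set.Ioo (0:ℝ) 1, c i j s = c k l t →
        (i ≠ k ∧ i ≠ l ∧ j ≠ k ∧ j ≠ l) ∧
        (∀ s' ∈ Set.Ioo (0:ℝ) 1, ∀ t' ∈ Set.Ioo (0:ℝ) 1,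
          c i j s' = c k l t' → s' = s ∧ t' = t) ∧
        ∃ ε : ℝ, 0 < ε ∧ ∃ h : (ℝ × ℝ) ≃ₜ (ℝ × ℝ),
          h (c i j s) = 0 ∧
          (∀ u ∈ Set.Ioo (s - ε) (s + ε), (h (c i j u)).2 = 0) ∧
          (∀ u ∈ Set.Ioo (t - ε) (t + ε), (h (c k l u)).1 = 0)) →
    ∃ σ : Equiv.Perm (Fin n), σ.IsCycle ∧ σ.support = Finset.univ ∧
      ∃ K : Finset (Fin n), K.card = m ∧ (∀ v ∈ K, σ v ∉ K) ∧
        ∀ v w : Fin n, v ∉ K → w ∉ K → v ≠ w → ∀ s ∈ Set.Ioo (0:ℝ) 1, ∀ t ∈ Set.Ioo (0:ℝ) 1,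
          c (min v (σ v)) (max v (σ v)) s ≠ c (min w (σ w)) (max w (σ w)) t := by
  intro n k hn k5 k2 pos c h0 h1 h2
  obtain ⟨p, G, hG, e⟩ := LT.exists_dr pos c h0 h1 h2
  obtain ⟨π, a0, a1, K, a2, a3, a4⟩ := hG.part (by simpa using (by omega : 2 ≤ n)) k
    (by simpa using k5) (by simpa using k2)
  exact ⟨π, a0, Finset.eq_univ_of_forall fun v => Equiv.Perm.mem_support.mpr (a1 v), K, a2, a3,
    fun v w hv hw j => e _ _ _ _ (a1 v).symm (a1 w).symm (a4 v hv w hw j)⟩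

/-- Consequence: a Hamiltonian cycle with 4 n / 5 (rounded down) pairwise non-crossing edges. -/
theorem fourFifths :
  ∀ (n : ℕ), 3 ≤ n →
  ∀ (pos : Fin n → ℝ × ℝ) (c : Fin n → Fin n → ℝ → ℝ × ℝ),
    Function.Injective pos →
    (∀ i j : Fin n, i < j →
      ContinuousOn (c i j) (Set.Icc 0 1) ∧ Set.InjOn (c i j) (Set.Icc 0 1) ∧
      c i j 0 = pos i ∧ c i j 1 = pos j ∧
      ∀ k : Fin n, ∀ s ∈ Set.Ioo (0:ℝ) 1, c i j s ≠ pos k) →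
    (∀ i j k l : Fin n, i < j → k < l → (i, j) ≠ (k, l) →
      ∀ s ∈ Set.Ioo (0:ℝ) 1, ∀ t ∈ Set.Ioo (0:ℝ) 1, c i j s = c k l t →
        (i ≠ k ∧ i ≠ l ∧ j ≠ k ∧ j ≠ l) ∧
        (∀ s' ∈ Set.Ioo (0:ℝ) 1, ∀ t' ∈ Set.Ioo (0:ℝ) 1,
          c i j s' = c k l t' → s' = s ∧ t' = t) ∧
        ∃ ε : ℝ, 0 < ε ∧ ∃ h : (ℝ × ℝ) ≃ₜ (ℝ × ℝ),
          h (c i j s) = 0 ∧
          (∀ u ∈ Set.Ioo (s - ε) (s + ε), (h (c i j u)).2 = 0) ∧
          (∀ u ∈ Set.Ioo (t - ε) (t + ε), (h (c k l u)).1 = 0)) →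
    ∃ σ : Equiv.Perm (Fin n), σ.IsCycle ∧ σ.support = Finset.univ ∧
      ∃ T : Finset (Fin n), 4 * n / 5 ≤ T.card ∧
        ∀ v ∈ T, ∀ w ∈ T, v ≠ w → ∀ s ∈ Set.Ioo (0:ℝ) 1, ∀ t ∈ Set.Ioo (0:ℝ) 1,
          c (min v (σ v)) (max v (σ v)) s ≠ c (min w (σ w)) (max w (σ w)) t := by
  intro n hn pos c h0 h1 h2
  obtain ⟨σ, a0, a1, K, a2, -, a4⟩ := result n ((n + 4) / 5) hn (by omega) (by omega) pos c h0 h1 h2
  refine ⟨σ, a0, a1, Kᶜ, ?_, fun v hv w hw =>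
    a4 v w (Finset.mem_compl.mp hv) (Finset.mem_compl.mp hw)⟩
  rw [Finset.card_compl, Fintype.card_fin]
  omega

/-- Consequence: n / 2 (rounded down) pairwise disjoint edges. -/
theorem matching :
  ∀ (n : ℕ) (pos : Fin n → ℝ × ℝ) (c : Fin n → Fin n → ℝ → ℝ × ℝ),
    Function.Injective pos →
    (∀ i j : Fin n, i < j →
      ContinuousOn (c i j) (Set.Icc 0 1) ∧ Set.InjOn (c i j) (Set.Icc 0 1) ∧
      c i j 0 = pos i ∧ c i j 1 = pos j ∧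
      ∀ k : Fin n, ∀ s ∈ Set.Ioo (0:ℝ) 1, c i j s ≠ pos k) →
    (∀ i j k l : Fin n, i < j → k < l → (i, j) ≠ (k, l) →
      ∀ s ∈ Set.Ioo (0:ℝ) 1, ∀ t ∈ Set.Ioo (0:ℝ) 1, c i j s = c k l t →
        (i ≠ k ∧ i ≠ l ∧ j ≠ k ∧ j ≠ l) ∧
        (∀ s' ∈ Set.Ioo (0:ℝ) 1, ∀ t' ∈ Set.Ioo (0:ℝ) 1,
          c i j s' = c k l t' → s' = s ∧ t' = t) ∧
        ∃ ε : ℝ, 0 < ε ∧ ∃ h : (ℝ × ℝ) ≃ₜ (ℝ × ℝ),
          h (c i j s) = 0 ∧
          (∀ u ∈ Set.Ioo (s - ε) (s + ε), (h (c i j u)).2 = 0) ∧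
          (∀ u ∈ Set.Ioo (t - ε) (t + ε), (h (c k l u)).1 = 0)) →
    ∃ M : Finset (Fin n × Fin n), M.card = n / 2 ∧ (∀ e ∈ M, e.1 < e.2) ∧
      ∀ e ∈ M, ∀ f ∈ M, e ≠ f → ∀ s ∈ Set.Icc (0:ℝ) 1, ∀ t ∈ Set.Icc (0:ℝ) 1,
        c e.1 e.2 s ≠ c f.1 f.2 t := by
  intro n pos c h0 h1 h2
  rcases Nat.lt_or_ge n 2 with hn | hn
  · exact ⟨∅, by simp; omega, by simp, by simp⟩
  rcases hn.eq_or_lt with rfl | hn
  · exact ⟨{(0, 1)}, rfl, by simp, by simp⟩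
  obtain ⟨π, -, a, K, m0, b, e⟩ := result n (n / 2) hn (by omega) (by omega) pos c h0 h1 h2
  have nf : ∀ v, π v ≠ v := fun v => Equiv.Perm.mem_support.mp (a ▸ Finset.mem_univ v)
  have lt : ∀ v, min v (π v) < max v (π v) := fun v => min_lt_max.mpr (nf v).symm
  have ds : ∀ v ∈ K, ∀ w ∈ K, v ≠ w → ∀ x, (x = min (π v) (π (π v)) ∨ x = max (π v) (π (π v))) →
      (x = min (π w) (π (π w)) ∨ x = max (π w) (π (π w))) → False := by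
    intro v hv w hw h x a c
    have a1 : π v ≠ π (π w) := fun k => b w hw (π.injective k ▸ hv)
    have a2 : π w ≠ π (π v) := fun k => b v hv (π.injective k ▸ hw)
    have a3 : π v ≠ π w := fun k => h (π.injective k)
    have a4 : π (π v) ≠ π (π w) := fun k => a3 (π.injective k)
    grind
  refine ⟨K.image fun v => (min (π v) (π (π v)), max (π v) (π (π v))), ?_, ?_, ?_⟩
  · rw [Finset.card_image_of_injOn fun v hv w hw h => by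
      by_contra k
      exact ds v hv w hw k _ (Or.inl rfl) (Or.inl (congrArg Prod.fst h)), m0]
  · simp only [Finset.mem_image]
    rintro _ ⟨v, -, rfl⟩
    exact lt _
  · simp only [Finset.mem_image]
    rintro _ ⟨v, hv, rfl⟩ _ ⟨w, hw, rfl⟩ h s hs t ht e1
    have vw : v ≠ w := fun k => h (by rw [k])
    obtain ⟨-, -, a1, a2, a3⟩ := h1 _ _ (lt (π v))
    obtain ⟨-, -, b1, b2, b3⟩ := h1 _ _ (lt (π w))
    simp only at e1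
    rcases LT.tri hs with rfl | rfl | hs <;> rcases LT.tri ht with rfl | rfl | ht
    · exact ds v hv w hw vw _ (Or.inl rfl) (Or.inl (h0 (a1.symm.trans (e1.trans b1))))
    · exact ds v hv w hw vw _ (Or.inl rfl) (Or.inr (h0 (a1.symm.trans (e1.trans b2))))
    · exact b3 _ t ht (e1.symm.trans a1)
    · exact ds v hv w hw vw _ (Or.inr rfl) (Or.inl (h0 (a2.symm.trans (e1.trans b1))))
    · exact ds v hv w hw vw _ (Or.inr rfl) (Or.inr (h0 (a2.symm.trans (e1.trans b2))))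
    · exact b3 _ t ht (e1.symm.trans a2)
    · exact a3 _ s hs (e1.trans b1)
    · exact a3 _ s hs (e1.trans b2)
    · exact e _ _ (b v hv) (b w hw) (fun k => vw (π.injective k)) s hs t ht e1

end Pool.Agent.Results.MP_3764f3_co.PathPartition
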